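import Pool.Agent.Helper234.RadSeg.Core

set_option autoImplicit false

/-!
The best constant in the problem of MacGregor on radial segments in images of normalised univalent
functions is `1`.
-/

namespace Pool.Agent.Results.MP_d4bd36_an.RadialReach

/-- The class `S`: holomorphic and injective on the unit disk, with `f 0 = 0` and `f' 0 = 1`. -/
def ClassS (f : ℂ → ℂ) : Prop :=
  DifferentiableOn ℂ f (Metric.ball 0 1) ∧ Set.InjOn f (Metric.ball 0 1) ∧ f 0 = 0 ∧ deriv f 0 = 1

/-- The image of the unit disk contains all the points `t e^{iθ}` with `0 ≤ t < ℓ`. -/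
def HasSegment (f : ℂ → ℂ) (θ ℓ : ℝ) : Prop :=
  ∀ t : ℝ, 0 ≤ t → t < ℓ → (t : ℂ) * Complex.exp (θ * Complex.I) ∈ f '' Metric.ball 0 1

/-- The radial reach `ρ(f)`: the supremum, in the extended reals, of the `ℓ > 0` such that the
image contains a radial segment of length `ℓ`. -/
noncomputable def reach (f : ℂ → ℂ) : EReal :=
  sSup {x : EReal | ∃ ℓ : ℝ, 0 < ℓ ∧ (∃ θ : ℝ, HasSegment f θ ℓ) ∧ x = (ℓ : EReal)}

/-- The constant `λ`: the infimum of the radial reach over the class `S`. -/
noncomputable def lam : EReal := sInf {x : EReal | ∃ f : ℂ → ℂ, ClassS f ∧ x = reach f}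

theorem one_le_reach {f : ℂ → ℂ} (hf : ClassS f) : (1 : EReal) ≤ reach f := by
  obtain ⟨θ, hθ⟩ := Pool.Agent.Helper234.RadSeg.core hf.1 hf.2.1 hf.2.2.1 hf.2.2.2
  exact le_sSup ⟨1, one_pos, ⟨θ, hθ⟩, by simp⟩

theorem classS_id : ClassS (fun z => z) :=
  ⟨differentiableOn_id, Set.injOn_id _, rfl, by simp⟩

theorem reach_id : reach (fun z => z) = 1 := by
  apply le_antisymm
  · refine sSup_le ?_
    rintro _ ⟨ℓ, -, ⟨θ, hθ⟩, rfl⟩
    by_contra hn
    push Not at hn
    have h1 : (1 : ℝ) < ℓ := by exact_mod_cast hn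
    have h2 := hθ 1 zero_le_one h1
    rw [Set.image_id'] at h2
    rw [mem_ball_zero_iff, Complex.ofReal_one, one_mul, Complex.norm_exp_ofReal_mul_I] at h2
    exact lt_irrefl _ h2
  · exact one_le_reach classS_id

/-- MacGregor's problem: the best constant `λ` is `1`; it is attained by the identity function,
and for every `f` in the class `S` there is a direction `θ` such that `f(𝔻)` contains the segment
of all `t e^{iθ}` with `0 ≤ t < 1`. -/
theorem result : lam = 1 ∧ reach (fun z => z) = 1 ∧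
    ∀ f : ℂ → ℂ, ClassS f → ∃ θ : ℝ, HasSegment f θ 1 := by
  refine ⟨le_antisymm ?_ ?_, reach_id, ?_⟩
  · exact sInf_le ⟨fun z => z, classS_id, reach_id.symm⟩
  · refine le_sInf ?_
    rintro _ ⟨f, hf, rfl⟩
    exact one_le_reach hf
  · intro f hf
    exact Pool.Agent.Helper234.RadSeg.core hf.1 hf.2.1 hf.2.2.1 hf.2.2.2

end Pool.Agent.Results.MP_d4bd36_an.RadialReach
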